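import Pool.Agent.H51.AchieveProof

set_option autoImplicit false

namespace Pool.Agent.Results.MP_51e3e3_an.AchievementSetIsPlane

open Filter Topology

/-- The achievement set of a sequence `v 1, v 2, ...` in the plane: the set of all sums of
convergent subseries `∑ ε n • v n` with `ε n ∈ {0, 1}`, the terms being kept in their order. -/
def achievementSet (v : ℕ → ℝ × ℝ) : Set (ℝ × ℝ) :=
  {s | ∃ ε : ℕ → ℝ, (∀ n, ε n = 0 ∨ ε n = 1) ∧
    Tendsto (fun N : ℕ => ∑ n ∈ Finset.Icc 1 N, ε n • v n) atTop (𝓝 s)}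

/-- Every point of the plane is the sum of a convergent subseries of the series with terms
`(-1)^n (1/n, 1/√n)`. -/
theorem result :
    achievementSet (fun n : ℕ => ((-1 : ℝ) ^ n / (n : ℝ), (-1 : ℝ) ^ n / Real.sqrt n))
      = Set.univ :=
  Set.eq_univ_of_forall fun s => Pool.Agent.H51.Achieve.main s.1 s.2

end Pool.Agent.Results.MP_51e3e3_an.AchievementSetIsPlane
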